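import Mathlib
import Pool.Agent.X116.NewtonB

/-!
# No rational function `a(1 + P/(QP+P'))` with `Q ≢ 0` shares `a` with its derivative in the plane
-/

open Polynomial Filter Topology
open Pool.Agent.X116.NewtonA

namespace Pool.Agent.Results.MP_db5e86_an.NoneExist

/-- The value at `z` of a rational function (meaningful when `z` is not a pole). -/
noncomputable def val (R : RatFunc ℂ) (z : ℂ) : ℂ := R.eval (RingHom.id ℂ) z

/-- `z` is not a pole of `R`. -/
def NotPole (R : RatFunc ℂ) (z : ℂ) : Prop := R.denom.eval z ≠ 0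

/-- `R` and `R'` share the finite value `a` in the plane: for every `z ∈ ℂ`, `R(z) = a` exactly
when `R'(z) = a`.  (At a pole of `R` both `R` and `R'` take the value `∞ ≠ a`.) -/
def SharesInPlane (R : RatFunc ℂ) (a : ℂ) : Prop :=
  ∀ z : ℂ, (NotPole R z ∧ val R z = a) ↔ (NotPole R z ∧ deriv (val R) z = a)

/-- The rational function `a (1 + P/(QP + P'))`. -/
noncomputable def R (P Q : ℂ[X]) (a : ℂ) : RatFunc ℂ :=
  RatFunc.C a * (1 + algebraMap ℂ[X] (RatFunc ℂ) P
    / algebraMap ℂ[X] (RatFunc ℂ) (Q * P + derivative P))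

lemma val_div {A B : ℂ[X]} (hB : B ≠ 0) {z : ℂ} (hz : B.eval z ≠ 0) {S : RatFunc ℂ}
    (hS : S = algebraMap ℂ[X] (RatFunc ℂ) A / algebraMap ℂ[X] (RatFunc ℂ) B) :
    NotPole S z ∧ val S z = A.eval z / B.eval z := by
  have h1 : S.num * B = A * S.denom := (RatFunc.num_mul_eq_mul_denom_iff hB).mpr hS
  have h2 : S.denom.eval z ≠ 0 := by
    intro h
    have h3 : S.denom ∣ B := by
      rw [hS]
      exact RatFunc.denom_div_dvd A B
    obtain ⟨D, hD⟩ := h3
    apply hz
    rw [hD, eval_mul, h, zero_mul]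
  refine ⟨h2, ?_⟩
  have h4 := congrArg (fun p => eval z p) h1
  simp only [eval_mul] at h4
  unfold val RatFunc.eval
  rw [← eval, ← eval, div_eq_div_iff h2 hz]
  exact h4

lemma shares_crit {P Q : ℂ[X]} {a : ℂ} (ha : a ≠ 0) (hd : dP P Q ≠ 0)
    (h : SharesInPlane (R P Q a) a) :
    ∀ z, (d2 P Q).eval z = 0 → P.eval z = 0 ∨ (dP P Q).eval z = 0 := by
  intro z hz
  by_cases hdz : (dP P Q).eval z = 0
  · exact Or.inr hdz
  left
  have hR : R P Q a = algebraMap ℂ[X] (RatFunc ℂ) (C a * (dP P Q + P))
      / algebraMap ℂ[X] (RatFunc ℂ) (dP P Q) := by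
    have h0 : algebraMap ℂ[X] (RatFunc ℂ) (dP P Q) ≠ 0 :=
      (map_ne_zero_iff _ (RatFunc.algebraMap_injective ℂ)).mpr hd
    unfold R
    change _ * (1 + _ / algebraMap ℂ[X] (RatFunc ℂ) (dP P Q)) = _
    rw [map_mul, map_add, ← RatFunc.algebraMap_C]
    field_simp
  have hval : ∀ w, (dP P Q).eval w ≠ 0 → NotPole (R P Q a) w ∧
      val (R P Q a) w = a * (1 + (w - N P Q w)) := by
    intro w hw
    obtain ⟨h1, h2⟩ := val_div hd hw hR
    refine ⟨h1, ?_⟩
    rw [h2]
    simp only [eval_mul, eval_C, eval_add]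
    unfold N
    field_simp
    ring
  have hopen : ∀ᶠ w in 𝓝 z, (dP P Q).eval w ≠ 0 :=
    (dP P Q).continuous.continuousAt.eventually_ne hdz
  have hev : val (R P Q a) =ᶠ[𝓝 z] fun w => a * (1 + (w - N P Q w)) := by
    filter_upwards [hopen] with w hw
    exact (hval w hw).2
  have hN' : N' P Q z = 0 := by
    unfold N'
    rw [hz, mul_zero, zero_div]
  have hder : HasDerivAt (fun w => a * (1 + (w - N P Q w))) a z := by
    have h1 := hasDerivAt_N (P := P) (Q := Q) hdz
    rw [hN'] at h1
    have h2 := (((hasDerivAt_id z).sub h1).const_add 1).const_mul a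
    simpa using h2
  have h3 : deriv (val (R P Q a)) z = a := by
    rw [hev.deriv_eq]
    exact hder.deriv
  have h4 := ((h z).mpr ⟨(hval z hdz).1, h3⟩).2
  rw [(hval z hdz).2] at h4
  have h5 : P.eval z / (dP P Q).eval z = 0 := by
    unfold N at h4
    have : a * (P.eval z / (dP P Q).eval z) = 0 := by linear_combination h4
    exact (mul_eq_zero.mp this).resolve_left ha
  rcases div_eq_zero_iff.mp h5 with h6 | h6
  · exact h6
  · exact absurd h6 hdz

/-- For a non-constant `Q`, some zero of `Q² + Q'` is not a zero of `Q`. -/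
lemma riccati {Q : ℂ[X]} (hQ : 0 < Q.natDegree) :
    ¬ ∀ z, (Q * Q + derivative Q).eval z = 0 → Q.eval z = 0 := by
  intro h
  have hQ0 : Q ≠ 0 := by
    rintro rfl
    simp at hQ
  have hQ' : derivative Q ≠ 0 := by
    intro h0
    have := derivative_eq_zero.mp h0
    omega
  have hlt := natDegree_derivative_lt hQ.ne'
  have hdeg : (Q * Q + derivative Q).natDegree = 2 * Q.natDegree := by
    rw [natDegree_add_eq_left_of_natDegree_lt]
    · rw [natDegree_mul hQ0 hQ0]; ring
    · rw [natDegree_mul hQ0 hQ0]; omega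
  have hA : Q * Q + derivative Q ≠ 0 := by
    intro h0
    rw [h0, natDegree_zero] at hdeg
    omega
  have hle : (Q * Q + derivative Q).roots ≤ (derivative Q).roots := by
    rw [Multiset.le_iff_count]
    intro z
    rw [count_roots, count_roots]
    by_cases hz : (Q * Q + derivative Q).eval z = 0
    · have hroot : Q.IsRoot z := h z hz
      have hm := derivative_rootMultiplicity_of_root hroot
      have hk : 0 < Q.rootMultiplicity z := (rootMultiplicity_pos hQ0).mpr hroot
      rw [hm]
      by_contra hcon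
      push Not at hcon
      have h1 : Q.rootMultiplicity z ≤ (Q * Q + derivative Q).rootMultiplicity z := by omega
      have h2 : (X - C z) ^ Q.rootMultiplicity z ∣ Q * Q + derivative Q :=
        (pow_dvd_pow _ h1).trans (pow_rootMultiplicity_dvd _ _)
      have h3 : (X - C z) ^ Q.rootMultiplicity z ∣ Q * Q :=
        (pow_rootMultiplicity_dvd Q z).mul_right Q
      have h4 : (X - C z) ^ Q.rootMultiplicity z ∣ derivative Q := (dvd_add_right h3).mp h2
      have h5 := (le_rootMultiplicity_iff hQ').mpr h4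
      omega
    · rw [rootMultiplicity_eq_zero hz]
      exact Nat.zero_le _
  have h1 := Multiset.card_le_card hle
  rw [← (IsAlgClosed.splits _).natDegree_eq_card_roots,
    ← (IsAlgClosed.splits _).natDegree_eq_card_roots, hdeg] at h1
  omega

/-- For every `a ≠ 0`, every `P` with only simple zeros and every `Q ≢ 0` for which
`R = a(1 + P/(QP+P'))` is non-constant, `R` and `R'` do not share `a` in the plane. -/
theorem result (a : ℂ) (P Q : ℂ[X]) (ha : a ≠ 0)
    (hsimple : ∀ z : ℂ, P.eval z = 0 → (derivative P).eval z ≠ 0) (hQ : Q ≠ 0)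
    (hconst : ∀ c : ℂ, R P Q a ≠ RatFunc.C c) : ¬ SharesInPlane (R P Q a) a := by
  intro h
  rcases Nat.eq_zero_or_pos P.natDegree with hP | hP
  · obtain ⟨p, hp⟩ : ∃ p, P = C p := ⟨P.coeff 0, eq_C_of_natDegree_eq_zero hP⟩
    have hp0 : p ≠ 0 := by
      rintro rfl
      rw [hp] at hsimple
      exact hsimple 0 (by simp) (by simp)
    have hdP : dP P Q = Q * C p := by
      unfold dP
      rw [hp, derivative_C, add_zero]
    have hd0 : dP P Q ≠ 0 := by
      rw [hdP]
      exact mul_ne_zero hQ (C_ne_zero.mpr hp0)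
    have hcrit := shares_crit ha hd0 h
    rcases Nat.eq_zero_or_pos Q.natDegree with hQd | hQd
    · obtain ⟨q, hq⟩ : ∃ q, Q = C q := ⟨Q.coeff 0, eq_C_of_natDegree_eq_zero hQd⟩
      have hq0 : q ≠ 0 := by
        rintro rfl
        exact hQ (by rw [hq, map_zero])
      apply hconst (a * (1 + p / (q * p)))
      unfold R
      rw [hp, hq, derivative_C, add_zero, ← C_mul, RatFunc.algebraMap_C, RatFunc.algebraMap_C,
        map_mul RatFunc.C a, map_add, map_div₀, map_one]
    · apply riccati hQd
      intro z hz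
      have h1 : (d2 P Q).eval z = 0 := by
        unfold d2
        rw [hdP, derivative_mul, derivative_C, mul_zero, add_zero]
        have e : Q * (Q * C p) + derivative Q * C p = (Q * Q + derivative Q) * C p := by ring
        rw [e, eval_mul, hz, zero_mul]
      rcases hcrit z h1 with h2 | h2
      · rw [hp, eval_C] at h2
        exact absurd h2 hp0
      · rw [hdP, eval_mul, eval_C] at h2
        exact (mul_eq_zero.mp h2).resolve_right hp0
  · exact Pool.Agent.X116.NewtonB.contra (P := P) (Q := Q)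
      ⟨hP, hQ, hsimple, shares_crit ha (dP_ne hP hQ) h⟩

end Pool.Agent.Results.MP_db5e86_an.NoneExist
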